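import Pool.Agent.Helper58.DG.Goals

/-! Packet D_HOM (project DG, MP_06d934_gt): homotopy invariance of the degree integral. -/

set_option autoImplicit false

namespace Pool.Agent.Helper9.DG

open MeasureTheory Topology Pool.Agent.Helper58.DG
open scoped ContDiff

/-- `Fin.cons s x` as a vector. -/
def cc {m : ℕ} (s : ℝ) (x : Fin m → ℝ) : Fin (m + 1) → ℝ := Fin.cons s x

theorem cc_zero {m : ℕ} (s : ℝ) (x : Fin m → ℝ) : cc s x 0 = s := rfl

theorem cc_succ {m : ℕ} (s : ℝ) (x : Fin m → ℝ) (j : Fin m) : cc s x j.succ = x j := rfl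

theorem contDiff_cc {m : ℕ} : ContDiff ℝ ∞ (fun z : ℝ × (Fin m → ℝ) ↦ cc z.1 z.2) := by
  refine contDiff_pi.2 fun i => ?_
  refine Fin.cases ?_ (fun j => ?_) i
  · exact contDiff_fst
  · exact (contDiff_apply ℝ ℝ j).comp contDiff_snd

theorem hasFDerivAt_cc {m : ℕ} (s : ℝ) (x : Fin m → ℝ) :
    HasFDerivAt (fun y : Fin m → ℝ ↦ cc s y)
      (ContinuousLinearMap.pi (fun i : Fin (m + 1) =>
        (Fin.cases (0 : (Fin m → ℝ) →L[ℝ] ℝ) (fun j => ContinuousLinearMap.proj j) i :
          (Fin m → ℝ) →L[ℝ] ℝ))) x := by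
  refine hasFDerivAt_pi.2 fun i => ?_
  refine Fin.cases ?_ (fun j => ?_) i
  · simpa [cc_zero] using hasFDerivAt_const s x
  · exact hasFDerivAt_apply j x

theorem fderiv_comp_cc {m : ℕ} {f : (Fin (m + 1) → ℝ) → ℝ} (hf : Differentiable ℝ f)
    (s : ℝ) (x : Fin m → ℝ) (j : Fin m) :
    fderiv ℝ (fun y : Fin m → ℝ ↦ f (cc s y)) x (Pi.single j 1) = pd f j.succ (cc s x) := by
  have h := ((hf (cc s x)).hasFDerivAt.comp x (hasFDerivAt_cc s x)).fderiv
  have h' : fderiv ℝ (fun y : Fin m → ℝ ↦ f (cc s y)) x = _ := h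
  rw [h', ContinuousLinearMap.comp_apply, pd]
  congr 1
  funext i
  refine Fin.cases ?_ (fun l => ?_) i
  · simp [ContinuousLinearMap.pi_apply]
  · simp only [ContinuousLinearMap.pi_apply, Fin.cases_succ, ContinuousLinearMap.proj_apply]
    by_cases h : l = j
    · subst h; simp
    · rw [Pi.single_eq_of_ne h, Pi.single_eq_of_ne (fun hh => h (Fin.succ_injective _ hh))]

theorem hasDerivAt_comp_cc {m : ℕ} {f : (Fin (m + 1) → ℝ) → ℝ} (hf : Differentiable ℝ f)
    (s : ℝ) (x : Fin m → ℝ) :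
    HasDerivAt (fun r : ℝ ↦ f (cc r x)) (pd f 0 (cc s x)) s := by
  have h1 : HasDerivAt (fun r : ℝ ↦ cc r x) (Pi.single 0 1 : Fin (m + 1) → ℝ) s := by
    refine hasDerivAt_pi.2 fun i => ?_
    refine Fin.cases ?_ (fun j => ?_) i
    · simpa [cc_zero] using hasDerivAt_id' s
    · simpa [cc_succ] using hasDerivAt_const s (x j)
  exact (hf (cc s x)).hasFDerivAt.comp_hasDerivAt s h1

theorem contDiff_pd {m : ℕ} {f : (Fin m → ℝ) → ℝ} (hf : ContDiff ℝ ∞ f) (i : Fin m) :
    ContDiff ℝ ∞ (fun z ↦ pd f i z) := by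
  unfold pd
  exact (hf.fderiv_right (m := ∞) (by simp)).clm_apply contDiff_const

theorem contDiff_det {n m : ℕ} {f : Fin m → Fin m → (Fin n → ℝ) → ℝ}
    (hf : ∀ k j, ContDiff ℝ ∞ (f k j)) :
    ContDiff ℝ ∞ (fun y ↦ (Matrix.of fun k j : Fin m ↦ f k j y).det) := by
  simp only [Matrix.det_apply, Matrix.of_apply]
  refine ContDiff.sum fun σ _ => ?_
  refine ContDiff.const_smul _ ?_
  exact contDiff_prod fun i _ => hf _ _

/-- Integration by parts against a compactly supported function. -/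
theorem parts {m : ℕ} {χ g : (Fin m → ℝ) → ℝ} (hχ : ContDiff ℝ ∞ χ) (hc : HasCompactSupport χ)
    (hg : ContDiff ℝ ∞ g) (v : Fin m → ℝ) :
    ∫ x, χ x * fderiv ℝ g x v = -∫ x, fderiv ℝ χ x v * g x := by
  have h1 : Continuous (fun x ↦ fderiv ℝ χ x v) :=
    ((hχ.fderiv_right (m := ∞) (by simp)).clm_apply contDiff_const).continuous
  have h2 : Continuous (fun x ↦ fderiv ℝ g x v) :=
    ((hg.fderiv_right (m := ∞) (by simp)).clm_apply contDiff_const).continuous
  have h3 : HasCompactSupport (fun x ↦ fderiv ℝ χ x v) := hc.fderiv_apply (𝕜 := ℝ) v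
  refine integral_mul_fderiv_eq_neg_fderiv_mul_of_integrable ?_ ?_ ?_ ?_ ?_
  · exact (h1.mul hg.continuous).integrable_of_hasCompactSupport h3.mul_right
  · exact (hχ.continuous.mul h2).integrable_of_hasCompactSupport hc.mul_right
  · exact (hχ.continuous.mul hg.continuous).integrable_of_hasCompactSupport hc.mul_right
  · intro x _
    exact (hχ.differentiable (by simp)) x
  · intro x _
    exact (hg.differentiable (by simp)) x

/-- Differentiation under the integral sign. -/
theorem diffInt {m : ℕ} {χ : (Fin m → ℝ) → ℝ} {A : (Fin (m + 1) → ℝ) → ℝ} (hχ : ContDiff ℝ ∞ χ)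
    (hc : HasCompactSupport χ) (hA : ContDiff ℝ ∞ A) (s : ℝ) :
    HasDerivAt (fun r : ℝ ↦ ∫ x, χ x * A (cc r x)) (∫ x, χ x * pd A 0 (cc s x)) s := by
  have hcc : Continuous (fun z : ℝ × (Fin m → ℝ) ↦ cc z.1 z.2) := contDiff_cc.continuous
  have hccr : ∀ r : ℝ, Continuous (fun x : Fin m → ℝ ↦ cc r x) := fun r =>
    hcc.comp (Continuous.prodMk continuous_const continuous_id)
  have hpd : Continuous (fun z : Fin (m + 1) → ℝ ↦ pd A 0 z) := (contDiff_pd hA 0).continuous
  have hjoint : Continuous (fun z : ℝ × (Fin m → ℝ) ↦ χ z.2 * pd A 0 (cc z.1 z.2)) :=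
    (hχ.continuous.comp continuous_snd).mul (hpd.comp hcc)
  have hcomp : IsCompact (Set.Icc (s - 1) (s + 1) ×ˢ tsupport χ) := isCompact_Icc.prod hc
  obtain ⟨C, hC⟩ := hcomp.exists_bound_of_continuousOn hjoint.continuousOn
  refine (hasDerivAt_integral_of_dominated_loc_of_deriv_le (μ := volume)
    (F := fun r x ↦ χ x * A (cc r x)) (F' := fun r x ↦ χ x * pd A 0 (cc r x)) (s := Metric.ball s 1)
    (bound := (tsupport χ).indicator (fun _ ↦ C)) (Metric.ball_mem_nhds s one_pos)
    ?_ ?_ ?_ ?_ ?_ ?_).2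
  · exact Filter.Eventually.of_forall fun r =>
      (hχ.continuous.mul (hA.continuous.comp (hccr r))).aestronglyMeasurable
  · exact (hχ.continuous.mul (hA.continuous.comp (hccr s))).integrable_of_hasCompactSupport
      hc.mul_right
  · exact (hχ.continuous.mul (hpd.comp (hccr s))).aestronglyMeasurable
  · refine Filter.Eventually.of_forall fun x r hr => ?_
    by_cases hx : x ∈ tsupport χ
    · rw [Set.indicator_of_mem hx]
      apply hC (r, x)
      refine ⟨?_, hx⟩
      rw [Metric.mem_ball, Real.dist_eq, abs_lt] at hr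
      exact ⟨by linarith [hr.1], by linarith [hr.2]⟩
    · rw [Set.indicator_of_notMem hx, image_eq_zero_of_notMem_tsupport hx, zero_mul, norm_zero]
  · rw [integrable_indicator_iff hc.measurableSet]
    exact integrableOn_const hc.measure_lt_top.ne
  · refine Filter.Eventually.of_forall fun x r _ => ?_
    exact (hasDerivAt_comp_cc (hA.differentiable (by simp)) r x).const_mul (χ x)

theorem d_hom (h1 : Pool.Agent.Helper58.DG.D_DIV) : Pool.Agent.Helper58.DG.D_HOM := by
  intro m _ F φ χ hF hφ hχ hc hzero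
  -- the map on `Fin (m+1) → ℝ`
  set Φ : (Fin (m + 1) → ℝ) → Fin m → ℝ := fun z ↦ F (z 0) (fun j ↦ z j.succ) with hΦdef
  have hΦcc : ∀ s x, Φ (cc s x) = F s x := fun s x => rfl
  have hΦ : ContDiff ℝ ∞ Φ := by
    have h2 : ContDiff ℝ ∞ (fun z : Fin (m + 1) → ℝ ↦ ((z 0, fun j ↦ z j.succ) : ℝ × (Fin m → ℝ))) :=
      (contDiff_apply ℝ ℝ 0).prodMk (contDiff_pi.2 fun j => contDiff_apply ℝ ℝ j.succ)
    exact hF.comp h2
  have hΦk : ∀ k, ContDiff ℝ ∞ (fun w ↦ Φ w k) := fun k => contDiff_pi.1 hΦ k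
  set M : Fin (m + 1) → (Fin (m + 1) → ℝ) → ℝ := fun i y ↦
    (Matrix.of fun k j : Fin m ↦ pd (fun w ↦ Φ w k) (i.succAbove j) y).det with hM
  have hMs : ∀ i, ContDiff ℝ ∞ (M i) := fun i =>
    contDiff_det (f := fun k j y ↦ pd (fun w ↦ Φ w k) (i.succAbove j) y)
      (fun k j => contDiff_pd (hΦk k) _)
  set A : Fin (m + 1) → (Fin (m + 1) → ℝ) → ℝ := fun i y ↦
    (-1) ^ (i : ℕ) * φ (Φ y) * M i y with hA
  have hAs : ∀ i, ContDiff ℝ ∞ (A i) := fun i =>
    (contDiff_const.mul (hφ.comp hΦ)).mul (hMs i)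
  have hdiv : ∀ z, ∑ i, pd (A i) i z = 0 := fun z => h1 m Φ φ hΦ hφ z
  -- the Jacobian
  have hjac : ∀ s x, M 0 (cc s x) = jac (F s) x := by
    intro s x
    have hFs : ContDiff ℝ ∞ (F s) := by
      have h3 : ContDiff ℝ ∞ (fun x : Fin m → ℝ ↦ ((s, x) : ℝ × (Fin m → ℝ))) :=
        contDiff_const.prodMk contDiff_id
      exact hF.comp h3
    have hFd : Differentiable ℝ (F s) := hFs.differentiable (by simp)
    unfold jac
    rw [ContinuousLinearMap.det, ← LinearMap.det_toMatrix']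
    simp only [hM]
    congr 1
    ext k j
    rw [Matrix.of_apply, LinearMap.toMatrix'_apply]
    have h4 := fderiv_comp_cc (f := fun w ↦ Φ w k) ((hΦk k).differentiable (by simp)) s x j
    have h5 : fderiv ℝ (fun y : Fin m → ℝ ↦ Φ (cc s y) k) x (Pi.single j 1) =
        fderiv ℝ (F s) x (Pi.single j 1) k := by
      have h6 : (fun y : Fin m → ℝ ↦ Φ (cc s y) k) = fun y ↦ F s y k := by
        funext y
        rw [hΦcc]
      rw [h6]
      have h7 := (hasFDerivAt_pi'.1 (hFd x).hasFDerivAt k).fderiv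
      rw [h7]
      rfl
    rw [Fin.succAbove_zero]
    rw [← h4, h5]
    have h8 : (fun j' : Fin m => if j' = j then (1 : ℝ) else 0) = Pi.single j 1 := by
      funext l
      simp [Pi.single_apply]
    simp only [ContinuousLinearMap.coe_coe]
  have hI : ∀ s, ∫ x, χ x * φ (F s x) * jac (F s) x = ∫ x, χ x * A 0 (cc s x) := by
    intro s
    congr 1
    funext x
    simp only [hA]
    rw [hjac, hΦcc]
    simp only [Fin.val_zero, pow_zero, one_mul]
    ring
  -- the derivative vanishes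
  have hder : ∀ s ∈ Set.Icc (0 : ℝ) 1, ∫ x, χ x * pd (A 0) 0 (cc s x) = 0 := by
    intro s hs
    have h2 : ∀ x, χ x * pd (A 0) 0 (cc s x) =
        ∑ j : Fin m, -(χ x * fderiv ℝ (fun y ↦ A j.succ (cc s y)) x (Pi.single j 1)) := by
      intro x
      have h3 := hdiv (cc s x)
      rw [Fin.sum_univ_succ] at h3
      have h4 : pd (A 0) 0 (cc s x) = -∑ j : Fin m, pd (A j.succ) j.succ (cc s x) := by linarith
      rw [h4, mul_neg, Finset.mul_sum, Finset.sum_neg_distrib]
      congr 1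
      refine Finset.sum_congr rfl fun j _ => ?_
      rw [fderiv_comp_cc ((hAs _).differentiable (by simp))]
    have hccs : ContDiff ℝ ∞ (fun x : Fin m → ℝ ↦ cc s x) := by
      have h3 : ContDiff ℝ ∞ (fun x : Fin m → ℝ ↦ ((s, x) : ℝ × (Fin m → ℝ))) :=
        contDiff_const.prodMk contDiff_id
      exact contDiff_cc.comp h3
    have hg : ∀ j : Fin m, ContDiff ℝ ∞ (fun y : Fin m → ℝ ↦ A j.succ (cc s y)) := fun j =>
      (hAs _).comp hccs
    calc ∫ x, χ x * pd (A 0) 0 (cc s x)
        = ∫ x, ∑ j : Fin m, -(χ x * fderiv ℝ (fun y ↦ A j.succ (cc s y)) x (Pi.single j 1)) := by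
          congr 1
          funext x
          exact h2 x
      _ = ∑ j : Fin m,
            ∫ x, -(χ x * fderiv ℝ (fun y ↦ A j.succ (cc s y)) x (Pi.single j 1)) := by
          refine integral_finsetSum _ fun j _ => Integrable.neg ?_
          have h5 : Continuous (fun x ↦ fderiv ℝ (fun y ↦ A j.succ (cc s y)) x (Pi.single j 1)) :=
            (((hg j).fderiv_right (m := ∞) (by simp)).clm_apply contDiff_const).continuous
          exact (hχ.continuous.mul h5).integrable_of_hasCompactSupport hc.mul_right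
      _ = 0 := by
          refine Finset.sum_eq_zero fun j _ => ?_
          rw [integral_neg, parts hχ hc (hg j), neg_neg]
          have h6 : ∀ x, fderiv ℝ χ x (Pi.single j 1) * A j.succ (cc s x) = 0 := by
            intro x
            by_cases h7 : fderiv ℝ χ x = 0
            · rw [h7]; simp
            · have h8 := hzero s hs x h7
              simp only [hA]
              rw [hΦcc, h8]
              ring
          simp [h6]
  have hd := diffInt (A := A 0) hχ hc (hAs 0)
  have hconst := constant_of_has_deriv_right_zero (a := (0 : ℝ)) (b := 1)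
    (f := fun r : ℝ ↦ ∫ x, χ x * A 0 (cc r x))
    (fun s _ => (hd s).continuousAt.continuousWithinAt) (fun s hs => by
      have h2 := hd s
      rw [hder s ⟨hs.1, hs.2.le⟩] at h2
      exact h2.hasDerivWithinAt)
  rw [hI 0, hI 1]
  exact (hconst 1 ⟨zero_le_one, le_rfl⟩).symm

end Pool.Agent.Helper9.DG
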